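import Pool.Agent.Helper69.EK6.Dat
import Pool.Agent.Helper69.EK5.Cen
set_option autoImplicit false
open Complex MeasureTheory Metric Set
open scoped Real ComplexConjugate

/-!
# Project EK6: the centre line
-/

namespace Pool.Agent.Helper69.EK6

open Pool.Sos71
open Pool.EK71 Pool.Agent.Helper52.EK Pool.Agent.Helper2.EK
open Pool.Agent.Helper69.EK3 hiding qX qY qL Rr c1_Rr c2_Rr Rr_le Dn Dn_ev Rr_conj_even Rr_conj_odd Rs dEta_conj
open Pool.Agent.Helper69.EK5 (DQ Dd Dd_pos Dd_low DL e_D qX qY qL Rr c1_Rr c2_Rr Rr_le Dn Dn_ev Dd_conj Rr_conj_even Rr_conj_odd Rs dEta_conj)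
open Pool.Agent.Helper71.EK3 (xL yL r2L FL G2L e_x e_y e_r2 e_F e_G2)
open Pool.Agent.Helper71.EKC (c1_unique pw2 e_pw sb2 e_sb)
open Pool.Agent.Helper71.EKC (c1_conj)

/-- conditions of the families -/
def okU (h j : ℕ) (t : AP × BP) : Bool :=
  dle (2 * j + 2) t.2 && ahom (2 * h - 2) t.1 && (decide (asum t.1 = 0) || par2 true t.2)

def okF (b : Bool) (h j : ℕ) (t : AP × BP) : Bool :=
  dle (2 * j + 2) t.2 && ahom (2 * h - 2) t.1 && (decide (asum t.1 = 0) || par2 b t.2)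

theorem KU_conj {a : DQ} {j h : ℕ} (hh : 2 ≤ h) {t : AP × BP} (ht : okU h j t = true) (X Y : ℂ) :
    KU a j t X Y + KU a j t (conj X) (conj Y) =
      - (2 * (asum (ader (ash 2 0 t.1)) : ℝ) / 2 ^ h * Rs a j t.2 X) := by
  simp only [okU, Bool.and_eq_true, Bool.or_eq_true, decide_eq_true_eq] at ht
  obtain ⟨⟨_, h2⟩, h3⟩ := ht
  have e0 : 2 * h - 2 + 2 + 0 = 2 * h := by omega
  have g1 : ahom (2 * h) (ash 2 0 t.1) = true := by
    have := ahom_ash 2 0 h2
    rwa [e0] at this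
  have g2 := ahom_ader g1
  unfold KU Rs
  rw [af_half_even g1, af_half_even g2, asum_ash]
  rcases h3 with h3 | h3
  · rw [h3]
    push_cast
    ring
  · have h4 := dEta_conj (a := a) (j := j) h3 X Y
    linear_combination (4 * ((asum t.1 : ℝ) / 2 ^ h)) * h4

theorem KVE_conj {a : DQ} {j h : ℕ} (hh : 2 ≤ h) {t : AP × BP} (ht : ahom (2 * h - 1) t.1 = true)
    (X Y : ℂ) : KVE a j t X Y + KVE a j t (conj X) (conj Y) =
      2 * (asum t.1 : ℝ) / 2 ^ h * Rs a j t.2 X := by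
  have e0 : 2 * h - 1 + 1 + 0 = 2 * h := by omega
  have g1 : ahom (2 * h) (ash 1 0 t.1) = true := by
    have := ahom_ash 1 0 ht
    rwa [e0] at this
  unfold KVE Rs
  rw [af_half_even g1, asum_ash]
  ring

theorem KF0_conj {a : DQ} {j h : ℕ} (hh : 2 ≤ h) {t : AP × BP} (ht : okF true h j t = true) (X Y : ℂ) :
    KF0 a j t X Y + KF0 a j t (conj X) (conj Y) = 0 := by
  simp only [okF, Bool.and_eq_true, Bool.or_eq_true, decide_eq_true_eq] at ht
  obtain ⟨⟨_, h2⟩, h3⟩ := ht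
  have e0 : 2 * h - 2 + 2 + 0 = 2 * h := by omega
  have g1 : ahom (2 * h) (ash 2 0 t.1) = true := by
    have := ahom_ash 2 0 h2
    rwa [e0] at this
  unfold KF0
  rw [af_half_even g1, asum_ash]
  rcases h3 with h3 | h3
  · rw [h3]
    simp
  · rw [Rr_conj_even h3, pow_one, pow_one, ← map_div₀]
    simp only [mul_im, ofReal_re, ofReal_im, conj_re, conj_im]
    ring

theorem KF1_conj {a : DQ} {j h : ℕ} (hh : 2 ≤ h) {t : AP × BP} (ht : okF false h j t = true) (X Y : ℂ) :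
    KF1 a j t X Y + KF1 a j t (conj X) (conj Y) = 0 := by
  simp only [okF, Bool.and_eq_true, Bool.or_eq_true, decide_eq_true_eq] at ht
  obtain ⟨⟨_, h2⟩, h3⟩ := ht
  have e0 : 2 * h - 2 + 2 + 0 = 2 * h := by omega
  have g1 : ahom (2 * h) (ash 2 0 t.1) = true := by
    have := ahom_ash 2 0 h2
    rwa [e0] at this
  unfold KF1
  rw [af_half_even g1, asum_ash]
  rcases h3 with h3 | h3
  · rw [h3]
    simp
  · rw [Rr_conj_odd h3, pow_one, pow_one, ← map_div₀]
    simp only [mul_im, mul_re, I_re, I_im, ofReal_re, ofReal_im, conj_re, conj_im]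
    ring

theorem KH_conj (t : AP × ℕ) (X Y : ℂ) : KH t X Y + KH t (conj X) (conj Y) = 0 := by
  unfold KH
  have e : (conj X - 1) ^ t.2 * (conj Y / conj X) ^ 2 = conj ((X - 1) ^ t.2 * (Y / X) ^ 2) := by
    simp
  rw [e, conj_im]
  ring

theorem EHM_re (a : DQ) (K h : ℕ) (t : ℕ × Bool × ℤ) (X Y : ℂ) (l η : ℝ) :
    (EHM a K h t).re (px l η X Y) = Dd a X.re X.im ^ K * NM t X Y η := by
  have h1 := csE_re t.1 l η X Y
  have e : (EHM a K h t).re (px l η X Y) = (t.2.2 : ℝ) *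
      ((if t.2.1 then (csE t.1).1 else (csE t.1).2).re (px l η X Y)) *
      (eo.re (px l η X Y) ^ (h - t.1)) * ev2 (X.re - 1) X.im (mu2 G2L (Dn a K)) := rfl
  rw [e, px_o, one_pow, ev2_mu, e_G2, Dn_ev]
  have h3 : ((X - 1) ^ 2).re = (X.re - 1) ^ 2 - X.im ^ 2 := by
    rw [pow_two (X - 1), mul_re]
    simp
    ring
  unfold NM trg
  rw [h3]
  cases hb : t.2.1
  · simp only [Bool.false_eq_true, if_false, h1.2]
    ring
  · simp only [if_true, h1.1]
    ring

end Pool.Agent.Helper69.EK6
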