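import Pool.Agent.Helper69.EK6.Tgt
import Pool.Agent.Helper69.EK5.Dat
set_option autoImplicit false
open Complex MeasureTheory Metric Set
open scoped Real ComplexConjugate

/-!
# Project EK6: data of a certificate and the target expressions
-/

namespace Pool.Agent.Helper69.EK6

open Pool.Sos71
open Pool.EK71 Pool.Agent.Helper52.EK Pool.Agent.Helper2.EK
open Pool.Agent.Helper69.EK3 hiding qX qY qL Rr c1_Rr c2_Rr Rr_le Dn Dn_ev
open Pool.Agent.Helper69.EK5 (DQ Dd Dd_pos Dd_low DL e_D qX qY qL Rr c1_Rr c2_Rr Rr_le Dn Dn_ev)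
open Pool.Agent.Helper71.EK3 (xL yL r2L FL G2L e_x e_y e_r2 e_F e_G2)
open Pool.Agent.Helper71.EKC (c1_unique pw2 e_pw sb2 e_sb)

structure Dat where
  a : DQ
  K : ℕ
  kU : ℕ
  kV : ℕ
  kF : ℕ
  kL : ℕ
  h : ℕ
  M : ℤ
  lam : ℤ
  c1 : ℤ
  a2 : ℤ
  UU : List (AP × BP)
  VX : List (AP × BP)
  VE : List (AP × BP)
  F0 : List (AP × BP)
  F1 : List (AP × BP)
  HH : List (AP × ℕ)
  HM : List (ℕ × Bool × ℤ)
  fi : Sd
  fo : Sd

/-! ### expressions -/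

/-- `sin η Re q`, `sin η Im q` -/
def eP : Ex := Ex.mul (Ex.sc 2 (Ex.va 2)) (Ex.va 3)
def eR : Ex := Ex.mul (Ex.sc 2 (Ex.va 2)) (Ex.va 4)
def es1 : Ex := Ex.add (Ex.mul eA (Ex.bp [[1], [2]])) eP
def es2 : Ex := Ex.add (Ex.mul eA (Ex.bp [[0, 2]])) eR
def et1 : Ex := Ex.add (Ex.mul eA (Ex.bp [[0], [2]])) eP
def esq : Ex := Ex.add (Ex.pow es1 2) (Ex.pow es2 2)
/-- `n - 1` -/
def eNM : Ex := Ex.sc 4 (Ex.add esq (Ex.add (Ex.sc (-1) (Ex.mul eA es1)) (Ex.mul eB es2)))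
/-- `|m - e₀|²` -/
def eME : Ex := Ex.sc 4 (Ex.add (Ex.pow et1 2) (Ex.pow es2 2))
/-- `Re m` -/
def eRm : Ex := Ex.add (Ex.sc 2 (Ex.add (Ex.mul eA es1) (Ex.sc (-1) (Ex.mul eB es2))))
  (Ex.sc (-1) eone)
def eTT (M : ℤ) (f : Sd) : Ex :=
  Ex.add (Ex.sc M eME) (Ex.add
    (Ex.mul (Ex.sc f.sg (Ex.va 0)) (Ex.add (Ex.sc f.Ma (Ex.add eNM eME))
      (Ex.sc (2 * f.Mb) (Ex.add eRm (Ex.sc (-1) eRe)))))
    (Ex.mul (Ex.pow (Ex.va 0) 2) (Ex.add (Ex.sc f.Maa (Ex.add eNM eone))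
      (Ex.add (Ex.sc (2 * f.Mab) eRm) (Ex.sc f.Mbb eone)))))

def eCon (f : Sd) : Ex :=
  Ex.add (Ex.sc f.r eNM) (Ex.mul (Ex.sc f.sg (Ex.va 0)) (Ex.add (Ex.sc f.r0 eone)
    (Ex.add (Ex.sc (4 * f.r1) esq) (Ex.sc f.r2 (Ex.add eNM eone)))))

def mulE (a : DQ) (K k : ℕ) (t : AP × BP) : Ex := Ex.mul (apE t.1) (Ex.bp (mu2 t.2 (Dn a (K - k))))

def EHM (a : DQ) (K h : ℕ) (t : ℕ × Bool × ℤ) : Ex :=
  Ex.mul (Ex.mul (Ex.sc t.2.2 (if t.2.1 then (csE t.1).1 else (csE t.1).2)) (Ex.pow eo (h - t.1)))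
    (Ex.bp (mu2 G2L (Dn a K)))

namespace Dat
variable (c : Dat)

/-- the null Lagrangians and `lam |X-1|² + a₂ Re (X-1)²`, times `D^K` -/
def tN : Ex :=
  sumE (EU c.a c.K c.kU) (sumE (EVX c.a c.K c.kV) (sumE (EVE c.a c.K c.kV)
    (sumE (EF0 c.a c.K c.kF) (sumE (EF1 c.a c.K c.kF) (sumE (EH c.a c.K)
      (sumE (EHM c.a c.K c.h)
        (Ex.mul (Ex.pow eo c.h) (Ex.bp (mu2 (ad2 (sm2 c.lam FL) (sm2 c.a2 G2L)) (Dn c.a c.K))))
        c.HM) c.HH) c.F1) c.F0) c.VE) c.VX) c.UU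

def tMul (f : Sd) : Ex :=
  Ex.add (sumE (mulE c.a c.K c.kL) (Ex.sc 0 (Ex.pow eo (c.h - 2))) f.L0)
    (Ex.mul (Ex.va 0) (sumE (mulE c.a c.K c.kL) (Ex.sc 0 (Ex.pow eo (c.h - 2))) f.L1))

def tSide (f : Sd) : Ex :=
  Ex.add c.tN (Ex.add
    (Ex.mul (Ex.mul (Ex.pow eo (c.h - 2)) (Ex.bp (sm2 (-1) (Dn c.a c.K)))) (eTT c.M f))
    (Ex.mul (c.tMul f) (eCon f)))

def tIn : Ex := c.tSide c.fi
def tOut : Ex := c.tSide c.fo

end Dat

/-! ### values -/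

theorem px_A (l η : ℝ) (X Y : ℂ) : eA.re (px l η X Y) = Real.sin η := by
  have e : Real.sin η = 2 * Real.sin (η / 2) * Real.cos (η / 2) := by
    rw [← Real.sin_two_mul]
    congr 1
    ring
  rw [e]
  simp only [eA, Ex.re, px]
  push_cast
  ring

theorem px_B (l η : ℝ) (X Y : ℂ) : eB.re (px l η X Y) = Real.cos η := by
  have e : Real.cos η = Real.cos (η / 2) ^ 2 - Real.sin (η / 2) ^ 2 := by
    rw [← Real.cos_two_mul']
    congr 1
    ring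
  rw [e]
  simp only [eB, Ex.re, px]
  push_cast
  ring

theorem px_o (l η : ℝ) (X Y : ℂ) : eo.re (px l η X Y) = 1 := by
  simp only [eo, Ex.re, px]
  exact Real.cos_sq_add_sin_sq _

theorem csE_re (k : ℕ) (l η : ℝ) (X Y : ℂ) :
    (csE k).1.re (px l η X Y) = Real.cos (k * η) ∧ (csE k).2.re (px l η X Y) = Real.sin (k * η) := by
  induction k with
  | zero => simp [csE, Ex.re]
  | succ k ih =>
    have e : ((k + 1 : ℕ) : ℝ) * η = k * η + η := by push_cast; ring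
    rw [e, Real.cos_add, Real.sin_add]
    constructor
    · show (csE k).1.re _ * eB.re _ + (-1 : ℤ) * ((csE k).2.re _ * eA.re _) = _
      rw [ih.1, ih.2, px_A, px_B]
      push_cast
      ring
    · show (csE k).2.re _ * eB.re _ + (csE k).1.re _ * eA.re _ = _
      rw [ih.1, ih.2, px_A, px_B]

section val
variable (l η : ℝ) (X Y : ℂ)

theorem px_P : eP.re (px l η X Y) = Real.sin η * (Y / X).re := by
  have e : Real.sin η = 2 * Real.sin (η / 2) * Real.cos (η / 2) := by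
    rw [← Real.sin_two_mul]
    congr 1
    ring
  rw [e]
  simp only [eP, Ex.re, px]
  push_cast
  ring

theorem px_R : eR.re (px l η X Y) = Real.sin η * (Y / X).im := by
  have e : Real.sin η = 2 * Real.sin (η / 2) * Real.cos (η / 2) := by
    rw [← Real.sin_two_mul]
    congr 1
    ring
  rw [e]
  simp only [eR, Ex.re, px]
  push_cast
  ring

theorem px_s1 : es1.re (px l η X Y) =
    Real.sin η * (2 * X.re - 1) + Real.sin η * (Y / X).re := by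
  show eA.re _ * (Ex.bp [[1], [2]]).re _ + eP.re _ = _
  rw [px_A, px_P]
  simp only [Ex.re, ev2, ev1, px]
  push_cast
  ring

theorem px_s2 : es2.re (px l η X Y) = Real.sin η * (2 * X.im) + Real.sin η * (Y / X).im := by
  show eA.re _ * (Ex.bp [[0, 2]]).re _ + eR.re _ = _
  rw [px_A, px_R]
  simp only [Ex.re, ev2, ev1, px]
  push_cast
  ring

theorem px_t1 : et1.re (px l η X Y) = Real.sin η * (2 * (X.re - 1)) + Real.sin η * (Y / X).re := by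
  show eA.re _ * (Ex.bp [[0], [2]]).re _ + eP.re _ = _
  rw [px_A, px_P]
  simp only [Ex.re, ev2, ev1, px]
  push_cast
  ring

theorem px_sq : esq.re (px l η X Y) = ‖mX X Y (Real.sin η) (Real.cos η) + 1‖ ^ 2 / 4 := by
  show es1.re _ ^ 2 + es2.re _ ^ 2 = _
  rw [px_s1, px_s2, mX_add (Real.sin_sq_add_cos_sq η), norm_mul, norm_mul, mul_pow, mul_pow,
    nq_sq ((Real.sin η : ℂ) + _), nq_sq ((((_ : ℝ) : ℂ)) + _)]
  simp only [add_re, add_im, mul_re, mul_im, ofReal_re, ofReal_im, I_re, I_im, mul_zero,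
    mul_one, sub_zero, add_zero, zero_add, Complex.norm_ofNat]
  have h := Real.sin_sq_add_cos_sq η
  linear_combination (-((Real.sin η * (2 * X.re - 1) + Real.sin η * (Y / X).re) ^ 2 +
    (Real.sin η * (2 * X.im) + Real.sin η * (Y / X).im) ^ 2)) * h

theorem px_Rm : eRm.re (px l η X Y) = (mX X Y (Real.sin η) (Real.cos η)).re := by
  show (2:ℤ) * (eA.re _ * es1.re _ + (-1 : ℤ) * (eB.re _ * es2.re _)) +
    (-1 : ℤ) * (eo.re _ ^ 2) = _
  rw [px_A, px_B, px_o, px_s1, px_s2]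
  have h := congrArg Complex.re (mX_add (X := X) (Y := Y) (Real.sin_sq_add_cos_sq η))
  simp only [add_re, add_im, mul_re, mul_im, ofReal_re, ofReal_im, I_re, I_im, mul_zero,
    mul_one, sub_zero, add_zero, zero_add, one_re, re_ofNat, im_ofNat] at h
  push_cast
  linear_combination -h

theorem px_NM : eNM.re (px l η X Y) = ‖mX X Y (Real.sin η) (Real.cos η)‖ ^ 2 - 1 := by
  show (4:ℤ) * (esq.re _ + ((-1 : ℤ) * (eA.re _ * es1.re _) + eB.re _ * es2.re _)) = _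
  have h1 := px_sq l η X Y
  have h2 := px_Rm l η X Y
  have h3 : eRm.re (px l η X Y) = (2:ℤ) * (eA.re (px l η X Y) * es1.re (px l η X Y) +
    (-1 : ℤ) * (eB.re (px l η X Y) * es2.re (px l η X Y))) + (-1 : ℤ) *
      (eo.re (px l η X Y) ^ 2) := rfl
  rw [px_o] at h3
  have h4 : ‖mX X Y (Real.sin η) (Real.cos η) + 1‖ ^ 2 =
      ‖mX X Y (Real.sin η) (Real.cos η)‖ ^ 2 + 2 * (mX X Y (Real.sin η) (Real.cos η)).re + 1 := by
    rw [nq_sq, nq_sq]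
    simp only [add_re, add_im, one_re, one_im]
    ring
  rw [h4] at h1
  rw [h2] at h3
  push_cast at h3 ⊢
  linear_combination 4 * h1 + 2 * h3

theorem px_ME : eME.re (px l η X Y) =
    ‖mX X Y (Real.sin η) (Real.cos η) - e0 (Real.sin η) (Real.cos η)‖ ^ 2 := by
  show (4:ℤ) * (et1.re _ ^ 2 + es2.re _ ^ 2) = _
  rw [px_t1, px_s2]
  have h0 : mX X Y (Real.sin η) (Real.cos η) - e0 (Real.sin η) (Real.cos η) =
      (1 + e0 (Real.sin η) (Real.cos η)) * (2 * X - 2 + Y / X) := by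
    unfold mX
    ring
  have h2 : 1 + e0 (Real.sin η) (Real.cos η) =
      2 * (Real.sin η : ℂ) * ((Real.sin η : ℂ) + (Real.cos η : ℂ) * I) := by
    unfold e0
    have h3 : (Real.sin η : ℂ) ^ 2 + (Real.cos η : ℂ) ^ 2 = 1 := by
      exact_mod_cast Real.sin_sq_add_cos_sq η
    linear_combination -h3 - (Real.sin η : ℂ) ^ 2 * I_sq
  have h4 : ‖(Real.sin η : ℂ) + (Real.cos η : ℂ) * I‖ ^ 2 = 1 := by
    rw [nq_sq]
    simp only [add_re, add_im, mul_re, mul_im, ofReal_re, ofReal_im, I_re, I_im, mul_zero,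
      mul_one, sub_zero, add_zero, zero_add]
    exact Real.sin_sq_add_cos_sq η
  rw [h0, h2, norm_mul, mul_pow, norm_mul, mul_pow, h4, norm_mul, mul_pow, Complex.norm_real,
    Real.norm_eq_abs, sq_abs, nq_sq (2 * X - 2 + Y / X)]
  simp only [add_re, add_im, sub_re, sub_im, mul_re, mul_im, re_ofNat, im_ofNat,
    Complex.norm_ofNat]
  push_cast
  ring

theorem px_Re : eRe.re (px l η X Y) = (e0 (Real.sin η) (Real.cos η)).re := by
  show eA.re _ ^ 2 + (-1 : ℤ) * eB.re _ ^ 2 = _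
  rw [px_A, px_B]
  unfold e0
  rw [pow_two ((Real.cos η : ℂ) - _)]
  simp only [neg_re, mul_re, mul_im, sub_re, sub_im, ofReal_re, ofReal_im, I_re, I_im]
  push_cast
  ring

/-- **the loss at a field value `m + sg l (α m + β)`** -/
theorem px_TT {M : ℤ} {f : Sd} {α β : ℝ} (h1 : (f.Ma : ℝ) = M * α) (h2 : (f.Mb : ℝ) = M * β)
    (h3 : (f.Maa : ℝ) = M * α ^ 2) (h4 : (f.Mab : ℝ) = M * (α * β)) (h5 : (f.Mbb : ℝ) = M * β ^ 2)
    (hs : (f.sg : ℝ) ^ 2 = 1) :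
    (eTT M f).re (px l η X Y) = M * ‖mX X Y (Real.sin η) (Real.cos η) +
      (((f.sg : ℝ) * l : ℝ) : ℂ) * ((α : ℂ) * mX X Y (Real.sin η) (Real.cos η) + (β : ℂ)) -
      e0 (Real.sin η) (Real.cos η)‖ ^ 2 := by
  have e : (eTT M f).re (px l η X Y) = M * eME.re (px l η X Y) + ((f.sg * l) *
      (f.Ma * (eNM.re (px l η X Y) + eME.re (px l η X Y)) + ((2 * f.Mb : ℤ) : ℝ) *
      (eRm.re (px l η X Y) + ((-1 : ℤ) : ℝ) * eRe.re (px l η X Y))) + l ^ 2 *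
      (f.Maa * (eNM.re (px l η X Y) + eo.re (px l η X Y) ^ 2) + (((2 * f.Mab : ℤ) : ℝ) *
      eRm.re (px l η X Y) + f.Mbb * eo.re (px l η X Y) ^ 2))) := rfl
  rw [e, px_ME, px_NM, px_Rm, px_Re, px_o]
  have n0 := norm_e0 η
  generalize mX X Y (Real.sin η) (Real.cos η) = m
  have n1 : ‖e0 (Real.sin η) (Real.cos η)‖ ^ 2 = 1 := by rw [n0]; norm_num
  generalize e0 (Real.sin η) (Real.cos η) = z at n1
  rw [nq_sq] at n1
  rw [nq_sq, nq_sq, nq_sq]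
  simp only [add_re, add_im, sub_re, sub_im, mul_re, mul_im, ofReal_re, ofReal_im]
  push_cast
  rw [h1, h2, h3, h4, h5]
  linear_combination (f.sg * l * M * α) * n1 +
    (-(l ^ 2 * M) * ((α * m.re + β) ^ 2 + (α * m.im) ^ 2)) * hs

theorem px_Con (f : Sd) : (eCon f).re (px l η X Y) =
    f.r * (‖mX X Y (Real.sin η) (Real.cos η)‖ ^ 2 - 1) + f.sg * l *
      (f.r0 + f.r1 * ‖mX X Y (Real.sin η) (Real.cos η) + 1‖ ^ 2 +
        f.r2 * ‖mX X Y (Real.sin η) (Real.cos η)‖ ^ 2) := by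
  have e : (eCon f).re (px l η X Y) = f.r * eNM.re (px l η X Y) + (f.sg * l) *
      (f.r0 * eo.re (px l η X Y) ^ 2 + (((4 * f.r1 : ℤ) : ℝ) * esq.re (px l η X Y) +
      f.r2 * (eNM.re (px l η X Y) + eo.re (px l η X Y) ^ 2))) := rfl
  rw [e, px_NM, px_sq, px_o]
  push_cast
  ring

end val

end Pool.Agent.Helper69.EK6
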