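import Pool.Agent.Helper69.EK5.XG
import Pool.Agent.Helper69.EK3.Fam
set_option autoImplicit false
open Complex MeasureTheory Metric Set
open scoped Real ComplexConjugate

/-!
# Project EK6: the families of null Lagrangians, angular functions `S g`, `S² g`, `S = sin (η/2)`
-/

namespace Pool.Agent.Helper69.EK6

open Pool.EK71 Pool.Agent.Helper52.EK Pool.Agent.Helper2.EK
open Pool.Agent.Helper69.EK3 hiding qX qY qL Rr c1_Rr c2_Rr Rr_le
open Pool.Agent.Helper69.EK5 (DQ Dd Dd_pos Dd_low DL e_D qX qY qL Rr c1_Rr c2_Rr Rr_le)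
open Pool.Agent.Helper71.EK3 (xL yL r2L FL G2L e_x e_y e_r2 e_F e_G2)
open Pool.Agent.Helper71.EKC (c1_unique pw2 e_pw sb2 e_sb)

variable {P : (ℂ → ℂ) → ℝ → ℝ → Prop}

/-! ### angular functions -/

theorem af_ash20 (g : AP) (η : ℝ) : af (ash 2 0 g) η = Real.sin (η / 2) ^ 2 * af g η := by
  unfold af
  rw [aev_ash]
  ring

theorem af_ash10 (g : AP) (η : ℝ) : af (ash 1 0 g) η = Real.sin (η / 2) * af g η := by
  unfold af
  rw [aev_ash]
  ring

/-- `2 (S² g)'· 2 / S` as a polynomial: `2 · af (ader (ash 2 0 g)) = S · af (adas g)` -/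
def adas : AP → AP
  | [] => []
  | (c, i, j) :: g => (Int.mul (Int.mul 2 c) (Int.ofNat (i + 2)), i, j + 1) ::
      ((match j with
        | 0 => []
        | j' + 1 => [(Int.mul (Int.mul (-2) c) (Int.ofNat (j' + 1)), i + 2, j')]) ++ adas g)

theorem aev_adas (S C : ℝ) (g : AP) :
    2 * aev S C (ader (ash 2 0 g)) = S * aev S C (adas g) := by
  induction g with
  | nil => simp [ader, ash, adas, aev]
  | cons t g ih =>
    obtain ⟨c, i, j⟩ := t
    cases j with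
    | zero =>
      simp only [ash, ader, adas, List.cons_append, List.nil_append, aev, imul_cast', ofNat_cast',
        add_zero]
      rw [mul_add, mul_add, ih]
      push_cast
      ring
    | succ j =>
      simp only [ash, ader, adas, List.cons_append, List.nil_append, aev, imul_cast', ofNat_cast',
        add_zero]
      rw [mul_add, mul_add, mul_add, mul_add, ih]
      push_cast
      simp only [Nat.succ_eq_add_one]
      ring

theorem af_adas (g : AP) (η : ℝ) :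
    2 * af (ader (ash 2 0 g)) η = Real.sin (η / 2) * af (adas g) η := by
  unfold af
  rw [aev_adas]

theorem hd20 (g : AP) (η : ℝ) : HasDerivAt (fun η => 4 * af (ash 2 0 g) η)
    (2 * af (ader (ash 2 0 g)) η) η := by
  refine ((af_hasDerivAt (ash 2 0 g) η).const_mul 4).congr_deriv ?_
  ring

theorem hd20' (g : AP) (η : ℝ) : HasDerivAt (fun η => 2 * af (ader (ash 2 0 g)) η)
    (af (ader (ader (ash 2 0 g))) η) η := by
  refine ((af_hasDerivAt (ader (ash 2 0 g)) η).const_mul 2).congr_deriv ?_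
  ring

theorem hd10 (g : AP) (η : ℝ) : HasDerivAt (fun η => 2 * af (ash 1 0 g) η)
    (af (ader (ash 1 0 g)) η) η := by
  refine ((af_hasDerivAt (ash 1 0 g) η).const_mul 2).congr_deriv ?_
  ring

/-- `S² ≤ S ≤ s` and `0 ≤ S` on the half strip -/
theorem half_le {η : ℝ} (hη : η ∈ Icc (0:ℝ) (π / 2)) :
    0 ≤ Real.sin (η / 2) ∧ Real.sin (η / 2) ≤ Real.sin η ∧ Real.sin (η / 2) ^ 2 ≤ Real.sin η := by
  have hp := Real.pi_pos
  have h0 : 0 ≤ Real.sin (η / 2) :=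
    Real.sin_nonneg_of_nonneg_of_le_pi (by linarith [hη.1]) (by linarith [hη.2])
  have h1 : Real.sin (η / 2) ≤ Real.sin η :=
    Real.sin_le_sin_of_le_of_le_pi_div_two (by linarith [hη.1]) hη.2 (by linarith [hη.1])
  have h2 := Real.sin_le_one (η / 2)
  exact ⟨h0, h1, by nlinarith⟩

/-! ### the families -/

noncomputable def NU (a : DQ) (j : ℕ) (t : AP × BP) (X Y : ℂ) (η : ℝ) : ℝ :=
  4 * af (ash 2 0 t.1) η * Rr a (j + 2) (qL a j t.2) X * ‖Y‖ ^ 2 -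
    af (ader (ader (ash 2 0 t.1))) η * Rr a j t.2 X

noncomputable def KU (a : DQ) (j : ℕ) (t : AP × BP) (X Y : ℂ) : ℝ :=
  4 * af (ash 2 0 t.1) (π / 2) * dEta (Rr a (j + 1) (qX a j t.2)) (Rr a (j + 1) (qY a j t.2)) X Y -
    2 * af (ader (ash 2 0 t.1)) (π / 2) * Rr a j t.2 X

theorem isNull_NU {a : DQ} {j : ℕ} (t : AP × BP) (h : dle (2 * j + 2) t.2 = true) :
    IsNull P (NU a j t) (KU a j t) := by
  obtain ⟨C, _, hC⟩ := Rr_le a j t.2 h
  exact isNull_U (c2_Rr a j t.2) (hd20 t.1) (hd20' t.1) (af_cont _)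
    (by rw [af_ash20]; simp) (by rw [af_adas]; simp) hC

noncomputable def NVX (a : DQ) (j : ℕ) (t : AP × BP) (X Y : ℂ) (η : ℝ) : ℝ :=
  2 * af (ash 1 0 t.1) η * (Rr a (j + 1) (qX a j t.2) X * Y.re +
    Rr a (j + 1) (qY a j t.2) X * Y.im)

theorem isNull_NVX {a : DQ} {j : ℕ} (t : AP × BP) (h : dle (2 * j + 2) t.2 = true) :
    IsNull P (NVX a j t) (fun _ _ => 0) := by
  obtain ⟨C, _, hC⟩ := Rr_le a j t.2 h
  exact isNull_W (c1_Rr a j t.2) (continuous_const.mul (af_cont _)) hC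

noncomputable def NVE (a : DQ) (j : ℕ) (t : AP × BP) (X Y : ℂ) (η : ℝ) : ℝ :=
  2 * af (ash 1 0 t.1) η * dEta (Rr a (j + 1) (qX a j t.2)) (Rr a (j + 1) (qY a j t.2)) X Y +
    af (ader (ash 1 0 t.1)) η * Rr a j t.2 X

noncomputable def KVE (a : DQ) (j : ℕ) (t : AP × BP) (X _Y : ℂ) : ℝ :=
  2 * af (ash 1 0 t.1) (π / 2) * Rr a j t.2 X

theorem isNull_NVE {a : DQ} {j : ℕ} (t : AP × BP) : IsNull P (NVE a j t) (KVE a j t) :=
  isNull_V (c1_Rr a j t.2) (hd10 t.1) (af_cont _) (by rw [af_ash10]; simp)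

noncomputable def NF0 (a : DQ) (j : ℕ) (t : AP × BP) (X Y : ℂ) (η : ℝ) : ℝ :=
  NG (fun η => 4 * af (ash 2 0 t.1) η) (fun η => 2 * af (ader (ash 2 0 t.1)) η)
    (fun X => (Rr a j t.2 X : ℂ)) (fun X => (Rr a (j + 1) (qX a j t.2) X : ℂ))
    (fun X => (Rr a (j + 1) (qY a j t.2) X : ℂ)) X Y ((Y / X) ^ 1) η

noncomputable def KF0 (a : DQ) (j : ℕ) (t : AP × BP) (X Y : ℂ) : ℝ :=
  - (4 * af (ash 2 0 t.1) (π / 2) * ((Rr a j t.2 X : ℂ) * (Y / X) ^ 1).im)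

noncomputable def NF1 (a : DQ) (j : ℕ) (t : AP × BP) (X Y : ℂ) (η : ℝ) : ℝ :=
  NG (fun η => 4 * af (ash 2 0 t.1) η) (fun η => 2 * af (ader (ash 2 0 t.1)) η)
    (fun X => I * (Rr a j t.2 X : ℂ)) (fun X => I * (Rr a (j + 1) (qX a j t.2) X : ℂ))
    (fun X => I * (Rr a (j + 1) (qY a j t.2) X : ℂ)) X Y ((Y / X) ^ 1) η

noncomputable def KF1 (a : DQ) (j : ℕ) (t : AP × BP) (X Y : ℂ) : ℝ :=
  - (4 * af (ash 2 0 t.1) (π / 2) * (I * (Rr a j t.2 X : ℂ) * (Y / X) ^ 1).im)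

theorem af20_bdd (g : AP) : ∃ M : ℝ, 0 ≤ M ∧ ∀ η ∈ Icc (0:ℝ) (π / 2),
    |4 * af (ash 2 0 g) η| ≤ M * Real.sin η ^ 1 := by
  obtain ⟨M, hM0, hM⟩ := af_bdd g
  refine ⟨4 * M, by positivity, fun η hη => ?_⟩
  obtain ⟨h0, _, h2⟩ := half_le hη
  rw [af_ash20, abs_mul, abs_mul, abs_of_nonneg (by norm_num : (0:ℝ) ≤ 4),
    abs_of_nonneg (sq_nonneg (Real.sin (η / 2))), pow_one]
  have h1 := hM η hη
  have h3 : Real.sin (η / 2) ^ 2 * |af g η| ≤ Real.sin η * M :=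
    mul_le_mul h2 h1 (abs_nonneg _) (by nlinarith)
  linarith

theorem isNull_NF0 {a : DQ} {j : ℕ} (t : AP × BP) (h : dle (2 * j + 2) t.2 = true) :
    IsNull DiscP (NF0 a j t) (KF0 a j t) := by
  obtain ⟨C, hC0, hC⟩ := Rr_le a j t.2 h
  obtain ⟨M, hM0, hM⟩ := af20_bdd t.1
  exact isNull_P (C₀ := 38) (C1c_real (c1_Rr a j t.2)) 1 (hd20 t.1)
    (continuous_const.mul (af_cont _)) (by rw [af_ash20]; simp) hC0 (by norm_num) hM0 hM
    (fun X => by rw [Complex.norm_real]; exact hC X) DiscP.q_le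

theorem isNull_NF1 {a : DQ} {j : ℕ} (t : AP × BP) (h : dle (2 * j + 2) t.2 = true) :
    IsNull DiscP (NF1 a j t) (KF1 a j t) := by
  obtain ⟨C, hC0, hC⟩ := Rr_le a j t.2 h
  obtain ⟨M, hM0, hM⟩ := af20_bdd t.1
  exact isNull_P (C₀ := 38) (C1c_I (c1_Rr a j t.2)) 1 (hd20 t.1)
    (continuous_const.mul (af_cont _)) (by rw [af_ash20]; simp) hC0 (by norm_num) hM0 hM
    (fun X => by rw [norm_mul, norm_I, one_mul, Complex.norm_real]; exact hC X) DiscP.q_le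

/-! holomorphic fields -/

/-- primitive of `4 S² g` -/
noncomputable def apr (g : AP) (η : ℝ) : ℝ := ∫ t in (0:ℝ)..η, 4 * af (ash 2 0 g) t

theorem apr_hasDerivAt (g : AP) (η : ℝ) : HasDerivAt (apr g) (4 * af (ash 2 0 g) η) η := by
  have hc : Continuous (fun t => 4 * af (ash 2 0 g) t) := continuous_const.mul (af_cont _)
  exact intervalIntegral.integral_hasDerivAt_right (hc.intervalIntegrable _ _)
    hc.stronglyMeasurable.stronglyMeasurableAtFilter hc.continuousAt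

theorem apr_bdd (g : AP) : ∃ M : ℝ, 0 ≤ M ∧ ∀ η ∈ Icc (0:ℝ) (π / 2),
    |apr g η| ≤ M * Real.sin η ^ 2 := by
  obtain ⟨M, hM0, hM⟩ := af_bdd g
  refine ⟨4 * M * (π / 2), by positivity, fun η hη => ?_⟩
  have hs : 0 ≤ Real.sin η := Real.sin_nonneg_of_nonneg_of_le_pi hη.1
    (hη.2.trans (by linarith [Real.pi_pos]))
  have h1 : ∀ t ∈ Set.uIoc 0 η, ‖4 * af (ash 2 0 g) t‖ ≤ 4 * M * Real.sin η ^ 2 := by
    intro t ht
    rw [uIoc_of_le hη.1] at ht
    have ht' : t ∈ Icc (0:ℝ) (π / 2) := ⟨ht.1.le, ht.2.trans hη.2⟩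
    obtain ⟨g0, g1, _⟩ := half_le ht'
    have hle : Real.sin t ≤ Real.sin η :=
      Real.sin_le_sin_of_le_of_le_pi_div_two (by linarith [ht.1, Real.pi_pos]) hη.2 ht.2
    rw [af_ash20, Real.norm_eq_abs, abs_mul, abs_mul, abs_of_nonneg (by norm_num : (0:ℝ) ≤ 4),
      abs_of_nonneg (sq_nonneg (Real.sin (t / 2)))]
    have h2 := hM t ht'
    have h3 : Real.sin (t / 2) ^ 2 ≤ Real.sin η ^ 2 := pow_le_pow_left₀ g0 (g1.trans hle) 2
    have h4 : Real.sin (t / 2) ^ 2 * |af g t| ≤ Real.sin η ^ 2 * M :=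
      mul_le_mul h3 h2 (abs_nonneg _) (sq_nonneg _)
    linarith
  have h2 := intervalIntegral.norm_integral_le_of_norm_le_const h1
  rw [Real.norm_eq_abs, sub_zero, abs_of_nonneg hη.1] at h2
  unfold apr
  refine h2.trans ?_
  have h3 : 4 * M * Real.sin η ^ 2 * η ≤ 4 * M * Real.sin η ^ 2 * (π / 2) :=
    mul_le_mul_of_nonneg_left hη.2 (by positivity)
  linarith

noncomputable def NH (t : AP × ℕ) (X Y : ℂ) (η : ℝ) : ℝ :=
  NG (apr t.1) (fun η => 4 * af (ash 2 0 t.1) η) (fun X => (X - 1) ^ t.2)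
    (fun X => (t.2 : ℂ) * (X - 1) ^ (t.2 - 1)) (fun X => I * ((t.2 : ℂ) * (X - 1) ^ (t.2 - 1)))
    X Y ((Y / X) ^ 2) η

noncomputable def KH (t : AP × ℕ) (X Y : ℂ) : ℝ :=
  - (apr t.1 (π / 2) * ((X - 1) ^ t.2 * (Y / X) ^ 2).im)

theorem isNull_NH (t : AP × ℕ) (h : t.2 ≤ 2) : IsNull DiscP (NH t) (KH t) := by
  obtain ⟨M, hM0, hM⟩ := apr_bdd t.1
  exact isNull_P (C₀ := 38) (C1c_pow t.2) 2 (apr_hasDerivAt t.1)
    (continuous_const.mul (af_cont _)) (by simp [apr]) zero_le_one (by norm_num) hM0 hM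
    (norm_pow_le t.2 h) DiscP.q_le

end Pool.Agent.Helper69.EK6
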